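import Pool.Agent.H71.HF.Defs
import Pool.Agent.H71.HM.Defs
import Pool.Agent.H92.PK.VCard

/-!
# VDIMA: basic notions of the statement in the structure `(ZFSet, ∈)`
-/

set_option autoImplicit false

open Cardinal BV PK HM

namespace HF

/-- `ω` -/
noncomputable def omz : ZFSet.{0} := (Ordinal.omega0).toZFSet

/-- the natural number `n` as a set -/
noncomputable def num (n : ℕ) : ZFSet.{0} := (n : Ordinal.{0}).toZFSet

/-- the set of natural numbers coded by `x` -/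
def dec (x : ZFSet.{0}) : Set ℕ := {n | num n ∈ x}

/-- the code of a set of natural numbers -/
noncomputable def enc (a : Set ℕ) : ZFSet.{0} := ZFSet.range fun n : a => num n.1

theorem num_mem_num (m n : ℕ) : num m ∈ num n ↔ m < n := by
  rw [num, num, Ordinal.toZFSet_mem_toZFSet_iff, Nat.cast_lt]

theorem VDIMA_num_inj {m n : ℕ} (h : num m = num n) : m = n := by
  have := Ordinal.toZFSet_injective h
  exact_mod_cast this

theorem mem_num (n : ℕ) (z : ZFSet.{0}) : z ∈ num n ↔ ∃ k < n, z = num k := by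
  rw [num, Ordinal.mem_toZFSet_iff]
  constructor
  · rintro ⟨a, ha, rfl⟩
    obtain ⟨k, rfl⟩ := Ordinal.lt_omega0.1 (ha.trans (Ordinal.natCast_lt_omega0 n))
    exact ⟨k, by exact_mod_cast ha, rfl⟩
  · rintro ⟨k, hk, rfl⟩
    exact ⟨k, by exact_mod_cast hk, rfl⟩

theorem mem_omz (z : ZFSet.{0}) : z ∈ omz ↔ ∃ k, z = num k := by
  rw [omz, Ordinal.mem_toZFSet_iff]
  constructor
  · rintro ⟨a, ha, rfl⟩
    obtain ⟨k, rfl⟩ := Ordinal.lt_omega0.1 ha
    exact ⟨k, rfl⟩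
  · rintro ⟨k, rfl⟩
    exact ⟨k, Ordinal.natCast_lt_omega0 k, rfl⟩

theorem VDIMA_mem_enc (a : Set ℕ) (z : ZFSet.{0}) : z ∈ enc a ↔ ∃ n ∈ a, z = num n := by
  rw [enc, ZFSet.mem_range]
  constructor
  · rintro ⟨⟨n, hn⟩, rfl⟩
    exact ⟨n, hn, rfl⟩
  · rintro ⟨n, hn, rfl⟩
    exact ⟨⟨n, hn⟩, rfl⟩

theorem dec_enc (a : Set ℕ) : dec (enc a) = a := by
  ext n
  show num n ∈ enc a ↔ n ∈ a
  rw [VDIMA_mem_enc]
  constructor
  · rintro ⟨m, hm, h⟩
    rw [VDIMA_num_inj h]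
    exact hm
  · intro h
    exact ⟨n, h, rfl⟩

theorem enc_dec {x : ZFSet.{0}} (hx : IsReal VE omz x) : enc (dec x) = x := by
  ext z
  rw [VDIMA_mem_enc]
  constructor
  · rintro ⟨n, hn, rfl⟩
    exact hn
  · intro h
    obtain ⟨k, rfl⟩ := (mem_omz z).1 (hx z h)
    exact ⟨k, h, rfl⟩

theorem isReal_enc (a : Set ℕ) : IsReal VE omz (enc a) := by
  intro z hz
  obtain ⟨n, -, rfl⟩ := (VDIMA_mem_enc a z).1 hz
  exact (mem_omz _).2 ⟨n, rfl⟩

theorem unbdd_V (x : ZFSet.{0}) : Unbdd VE omz x ↔ (dec x).Infinite := by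
  constructor
  · intro h
    refine Set.infinite_of_forall_exists_gt fun m => ?_
    obtain ⟨n, hn, h1, h2⟩ := h (num m) ((mem_omz _).2 ⟨m, rfl⟩)
    obtain ⟨k, rfl⟩ := (mem_omz _).1 hn
    exact ⟨k, h2, (num_mem_num _ _).1 h1⟩
  · intro h m hm
    obtain ⟨k, rfl⟩ := (mem_omz _).1 hm
    obtain ⟨n, hn, hkn⟩ := h.exists_gt k
    exact ⟨num n, (mem_omz _).2 ⟨n, rfl⟩, (num_mem_num _ _).2 hkn, hn⟩

theorem almostSub_V (x y : ZFSet.{0}) : AlmostSub VE omz x y ↔ (dec x \ dec y).Finite := by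
  constructor
  · rintro ⟨m, hm, h⟩
    obtain ⟨k, rfl⟩ := (mem_omz _).1 hm
    refine (Set.finite_Iic k).subset ?_
    rintro n ⟨h1, h2⟩
    by_contra hn
    rw [Set.mem_Iic, not_le] at hn
    exact h2 (h (num n) ((mem_omz _).2 ⟨n, rfl⟩) ((num_mem_num _ _).2 hn) h1)
  · intro h
    obtain ⟨k, hk⟩ := h.bddAbove
    refine ⟨num k, (mem_omz _).2 ⟨k, rfl⟩, fun n hn h1 h2 => ?_⟩
    obtain ⟨l, rfl⟩ := (mem_omz _).1 hn
    by_contra h3
    have := hk (show l ∈ dec x \ dec y from ⟨h2, h3⟩)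
    exact absurd ((num_mem_num _ _).1 h1) (not_lt.2 this)

theorem agree_V (n : ℕ) (x y : ZFSet.{0}) :
    Agree VE (num n) x y ↔ ∀ i < n, (i ∈ dec x ↔ i ∈ dec y) := by
  constructor
  · intro h i hi
    exact h (num i) ((num_mem_num _ _).2 hi)
  · intro h z hz
    obtain ⟨k, hk, rfl⟩ := (mem_num n z).1 hz
    exact h k hk

/-- an injection of `Fin K × Fin (m + 1)` into `Fin n` exists iff `K * (m + 1) ≤ n` -/
theorem mulLe_V (K m n : ℕ) : MulLe VE (num K) (num m) (num n) ↔ K * (m + 1) ≤ n := by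
  constructor
  · rintro ⟨g, h1, h2, h3⟩
    have h4 : ∀ q : Fin K × Fin (m + 1), ∃ k : Fin n,
        App VE g (ZFSet.pair (num q.1) (num q.2)) (num k) := by
      intro q
      obtain ⟨k, hk, hk'⟩ := h1 (num q.1) (num q.2) (ZFSet.pair (num q.1) (num q.2))
        ((num_mem_num _ _).2 q.1.2) (by
          rcases Nat.lt_or_eq_of_le (Nat.lt_succ_iff.1 q.2.2) with h | h
          · exact Or.inl ((num_mem_num _ _).2 h)
          · exact Or.inr (by rw [h])) ((isOPair_V _ _ _).2 rfl)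
      obtain ⟨l, hl, rfl⟩ := (mem_num n k).1 hk
      exact ⟨⟨l, hl⟩, hk'⟩
    choose F hF using h4
    have hinj : Function.Injective F := by
      intro q q' hq
      have h5 := hF q
      rw [hq] at h5
      have h6 := h3 _ _ _ h5 (hF q')
      obtain ⟨h7, h8⟩ := ZFSet.pair_inj.1 h6
      exact Prod.ext (Fin.ext (VDIMA_num_inj h7)) (Fin.ext (VDIMA_num_inj h8))
    have := Fintype.card_le_of_injective F hinj
    simpa using this
  · intro h
    have happ : ∀ p k, App VE (ZFSet.range fun q : Fin K × Fin (m + 1) =>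
        ZFSet.pair (ZFSet.pair (num q.1) (num q.2)) (num (finProdFinEquiv q))) p k ↔
        ∃ q : Fin K × Fin (m + 1), p = ZFSet.pair (num q.1) (num q.2) ∧
          k = num (finProdFinEquiv q) := by
      intro p k
      rw [app_V, ZFSet.mem_range]
      constructor
      · rintro ⟨q, hq⟩
        obtain ⟨h1, h2⟩ := ZFSet.pair_inj.1 hq
        exact ⟨q, h1.symm, h2.symm⟩
      · rintro ⟨q, rfl, rfl⟩
        exact ⟨q, rfl⟩
    refine ⟨ZFSet.range fun q : Fin K × Fin (m + 1) =>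
        ZFSet.pair (ZFSet.pair (num q.1) (num q.2)) (num (finProdFinEquiv q)), ?_, ?_, ?_⟩
    · intro i j p hi hj hp
      obtain ⟨a, ha, rfl⟩ := (mem_num _ _).1 hi
      have hj' : ∃ b < m + 1, j = num b := by
        rcases hj with hj | hj
        · obtain ⟨b, hb, rfl⟩ := (mem_num _ _).1 hj
          exact ⟨b, by omega, rfl⟩
        · exact ⟨m, by omega, hj⟩
      obtain ⟨b, hb, rfl⟩ := hj'
      refine ⟨num (finProdFinEquiv ((⟨a, ha⟩ : Fin K), (⟨b, hb⟩ : Fin (m + 1)))), ?_, ?_⟩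
      · refine (num_mem_num _ _).2 (lt_of_lt_of_le ?_ h)
        exact (finProdFinEquiv ((⟨a, ha⟩ : Fin K), (⟨b, hb⟩ : Fin (m + 1)))).2
      · rw [happ]
        exact ⟨(⟨a, ha⟩, ⟨b, hb⟩), (isOPair_V _ _ _).1 hp, rfl⟩
    · intro p k k' h1 h2
      obtain ⟨q, rfl, rfl⟩ := (happ _ _).1 h1
      obtain ⟨q', h3, rfl⟩ := (happ _ _).1 h2
      obtain ⟨h7, h8⟩ := ZFSet.pair_inj.1 h3
      rw [show q = q' from Prod.ext (Fin.ext (VDIMA_num_inj h7)) (Fin.ext (VDIMA_num_inj h8))]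
    · intro p p' k h1 h2
      obtain ⟨q, rfl, rfl⟩ := (happ _ _).1 h1
      obtain ⟨q', rfl, h3⟩ := (happ _ _).1 h2
      have h4 : q = q' := finProdFinEquiv.injective (Fin.ext (VDIMA_num_inj h3))
      rw [h4]

/-- the indices `(m, s)` -/
theorem isIdx_V (m s : ZFSet.{0}) : IsIdx VE omz m s ↔
    ∃ (k : ℕ) (t : Finset ℕ), t ⊆ Finset.range k ∧ m = num k ∧ s = enc (↑t : Set ℕ) := by
  constructor
  · rintro ⟨hm, hs⟩
    obtain ⟨k, rfl⟩ := (mem_omz _).1 hm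
    have h1 : dec s ⊆ Set.Iio k := by
      intro n hn
      exact (num_mem_num _ _).1 (hs _ hn)
    have h2 : (dec s).Finite := (Set.finite_Iio k).subset h1
    have h3 : IsReal VE omz s := by
      intro z hz
      obtain ⟨l, -, rfl⟩ := (mem_num _ _).1 (hs z hz)
      exact (mem_omz _).2 ⟨l, rfl⟩
    refine ⟨k, h2.toFinset, ?_, rfl, ?_⟩
    · intro n hn
      rw [Finset.mem_range]
      exact h1 ((Set.Finite.mem_toFinset h2).1 hn)
    · rw [Set.Finite.coe_toFinset, enc_dec h3]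
  · rintro ⟨k, t, ht, rfl, rfl⟩
    refine ⟨(mem_omz _).2 ⟨k, rfl⟩, fun z hz => ?_⟩
    obtain ⟨n, hn, rfl⟩ := (VDIMA_mem_enc _ _).1 hz
    exact (num_mem_num _ _).2 (Finset.mem_range.1 (ht hn))

/-- functions `f` in the sense of `(ZFSet, ∈)` and functions `ℕ → Finset ℕ → Set ℕ` -/
theorem exists_fun (f : ℕ → Finset ℕ → Set ℕ) : ∃ F : ZFSet.{0}, IsFun VE F ∧
    ∀ (m : ℕ) (s : Finset ℕ) (a : ZFSet.{0}),
      App VE F (ZFSet.pair (num m) (enc (↑s : Set ℕ))) a ↔ a = enc (f m s) := by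
  have hinj : ∀ q q' : ℕ × Finset ℕ, ZFSet.pair (num q.1) (enc (↑q.2 : Set ℕ)) =
      ZFSet.pair (num q'.1) (enc (↑q'.2 : Set ℕ)) → q = q' := by
    intro q q' h
    obtain ⟨h1, h2⟩ := ZFSet.pair_inj.1 h
    have h3 := congrArg dec h2
    rw [dec_enc, dec_enc] at h3
    exact Prod.ext (VDIMA_num_inj h1) (Finset.coe_injective h3)
  have happ : ∀ p a, App VE (ZFSet.range fun q : ℕ × Finset ℕ =>
      ZFSet.pair (ZFSet.pair (num q.1) (enc (↑q.2 : Set ℕ))) (enc (f q.1 q.2))) p a ↔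
      ∃ q : ℕ × Finset ℕ, p = ZFSet.pair (num q.1) (enc (↑q.2 : Set ℕ)) ∧
        a = enc (f q.1 q.2) := by
    intro p a
    rw [app_V, ZFSet.mem_range]
    constructor
    · rintro ⟨q, hq⟩
      obtain ⟨h1, h2⟩ := ZFSet.pair_inj.1 hq
      exact ⟨q, h1.symm, h2.symm⟩
    · rintro ⟨q, rfl, rfl⟩
      exact ⟨q, rfl⟩
  refine ⟨ZFSet.range fun q : ℕ × Finset ℕ =>
      ZFSet.pair (ZFSet.pair (num q.1) (enc (↑q.2 : Set ℕ))) (enc (f q.1 q.2)), ?_, ?_⟩
  · intro p a a' h1 h2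
    obtain ⟨q, rfl, rfl⟩ := (happ _ _).1 h1
    obtain ⟨q', h3, rfl⟩ := (happ _ _).1 h2
    rw [hinj q q' h3]
  · intro m s a
    rw [happ]
    constructor
    · rintro ⟨q, h1, rfl⟩
      have := hinj (m, s) q h1
      rw [← this]
    · rintro rfl
      exact ⟨(m, s), rfl, rfl⟩

end HF
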