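import Mathlib

/-!
# Definitions for the comparison with the real world
-/

set_option autoImplicit false

namespace HF

open Cardinal

open Classical in
/-- the real number in `[0, 1]` with the binary digits given by the set `x` of natural numbers -/
noncomputable def bin (x : Set ℕ) : ℝ := ∑' n : ℕ, if n ∈ x then (1 / 2 : ℝ) ^ (n + 1) else 0

/-- the same for points of the plane -/
noncomputable def bin2 (z : Set ℕ × Set ℕ) : ℝ × ℝ := (bin z.1, bin z.2)

/-- combinatorial form of the set `Y` of 0-1 sequences has Hausdorff dimension zero -/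
def Comb1 (Y : Set (Set ℕ)) : Prop :=
  ∀ K : ℕ, ∃ f : ℕ → Finset ℕ → Set ℕ, ∀ y ∈ Y, ∃ m, ∃ s ⊆ Finset.range m,
    ∀ i < K * (m + 1), (i ∈ y ↔ i ∈ f m s)

/-- combinatorial form of the set `Z` of pairs of 0-1 sequences has Hausdorff dimension zero -/
def Comb2 (Z : Set (Set ℕ × Set ℕ)) : Prop :=
  ∀ K : ℕ, ∃ f g : ℕ → Finset ℕ → Set ℕ, ∀ z ∈ Z, ∃ m, ∃ s ⊆ Finset.range m,
    (∀ i < K * (m + 1), (i ∈ z.1 ↔ i ∈ f m s)) ∧ ∀ i < K * (m + 1), (i ∈ z.2 ↔ i ∈ g m s)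

/-- `c < 𝔭`, as in the frozen statement S14301 -/
def Below (c : Cardinal.{0}) : Prop :=
  ∀ F : Set (Set ℕ), #F ≤ c → (∀ A ∈ F, A.Infinite) →
    (∀ G : Finset (Set ℕ), (↑G : Set (Set ℕ)) ⊆ F → (⋂ A ∈ G, A).Infinite) →
    ∃ B : Set ℕ, B.Infinite ∧ ∀ A ∈ F, (B \ A).Finite

/-- the frozen statement S14301 -/
def Main : Prop :=
  ∀ X : Set ℝ,
    (∀ F : Set (Set ℕ), #F ≤ #X →
      (∀ A ∈ F, A.Infinite) →
      (∀ G : Finset (Set ℕ), (↑G : Set (Set ℕ)) ⊆ F → (⋂ A ∈ G, A).Infinite) →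
      ∃ B : Set ℕ, B.Infinite ∧ ∀ A ∈ F, (B \ A).Finite) →
    ∀ Y : Set ℝ, dimH Y = 0 → dimH (X ×ˢ Y) = 0

/-! ## Binary digits -/

open Classical in
/-- the digits of `x` -/
noncomputable def hfdg (x : Set ℕ) (i : ℕ) : Fin 2 := if i ∈ x then 1 else 0

theorem hfdef_term (x : Set ℕ) (i : ℕ) [Decidable (i ∈ x)] : Real.ofDigitsTerm (hfdg x) i =
    if i ∈ x then (1 / 2 : ℝ) ^ (i + 1) else 0 := by
  unfold Real.ofDigitsTerm hfdg
  by_cases h : i ∈ x
  · simp [h]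
  · simp [h]

theorem hfdef_bin (x : Set ℕ) : bin x = Real.ofDigits (hfdg x) := by
  classical
  unfold bin Real.ofDigits
  refine tsum_congr fun i => ?_
  rw [hfdef_term]

/-- if `x` and `y` agree below `n` then `bin x` and `bin y` are at distance at most `2 ^ (-n)` -/
theorem abs_bin_sub_le {x y : Set ℕ} {n : ℕ} (h : ∀ i < n, (i ∈ x ↔ i ∈ y)) :
    |bin x - bin y| ≤ (1 / 2 : ℝ) ^ n := by
  rw [hfdef_bin, hfdef_bin]
  have h1 := Real.abs_ofDigits_sub_ofDigits_le (x := hfdg x) (y := hfdg y) (n := n)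
    (fun i hi => by
      unfold hfdg
      by_cases hx : i ∈ x
      · rw [if_pos hx, if_pos ((h i hi).1 hx)]
      · rw [if_neg hx, if_neg (fun hy => hx ((h i hi).2 hy))])
  refine h1.trans (le_of_eq ?_)
  rw [one_div, inv_pow]
  norm_num

theorem bin_mem_Icc (x : Set ℕ) : bin x ∈ Set.Icc (0 : ℝ) 1 := by
  rw [hfdef_bin]
  exact ⟨Real.ofDigits_nonneg _, Real.ofDigits_le_one _⟩

/-- every real number in `[0, 1]` has binary digits -/
theorem exists_bin {t : ℝ} (ht : t ∈ Set.Icc (0 : ℝ) 1) : ∃ x : Set ℕ, bin x = t := by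
  obtain ⟨d, -, hd⟩ := Real.ofDigits_SurjOn (b := 2) (by norm_num) ht
  refine ⟨{i | d i = 1}, ?_⟩
  rw [hfdef_bin, ← hd]
  congr 1
  funext i
  unfold hfdg
  by_cases h : d i = 1
  · rw [if_pos (show i ∈ {i | d i = 1} from h), h]
  · rw [if_neg (show ¬ i ∈ {i | d i = 1} from h)]
    have h2 : d i = 0 ∨ d i = 1 := by
      generalize d i = a
      revert a
      decide
    rcases h2 with h2 | h2
    · exact h2.symm
    · exact absurd h2 h

theorem hfdef_head (x : Set ℕ) (n : ℕ) : ∃ k : ℕ,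
    (∑ i ∈ Finset.range n, Real.ofDigitsTerm (hfdg x) i) = (k : ℝ) / 2 ^ n ∧
      ∀ i < n, (i ∈ x ↔ k.testBit (n - 1 - i) = true) := by
  classical
  induction n with
  | zero => exact ⟨0, by simp, fun i hi => absurd hi (Nat.not_lt_zero i)⟩
  | succ n ih =>
    obtain ⟨k, hk1, hk2⟩ := ih
    refine ⟨Nat.bit (decide (n ∈ x)) k, ?_, fun i hi => ?_⟩
    · rw [Finset.sum_range_succ, hk1, hfdef_term, Nat.bit_val]
      by_cases h : n ∈ x
      · simp only [h, if_true, decide_true, Bool.toNat_true]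
        push_cast
        rw [one_div, inv_pow, pow_succ]
        field_simp
      · simp only [h, if_false, decide_false, Bool.toNat_false]
        push_cast
        rw [pow_succ]
        field_simp
        ring
    · rcases Nat.lt_succ_iff_lt_or_eq.1 hi with h | h
      · have h1 : n + 1 - 1 - i = (n - 1 - i) + 1 := by omega
        rw [h1, Nat.testBit_bit_succ]
        exact hk2 i h
      · have h1 : n + 1 - 1 - i = 0 := by omega
        rw [h1, Nat.testBit_bit_zero, h]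
        simp

/-- the first `n` digits determine the position up to `2 ^ (-n)`:
`k / 2 ^ n ≤ bin x ≤ (k + 1) / 2 ^ n` for the number `k` with these digits -/
theorem exists_head (n : ℕ) (x : Set ℕ) : ∃ k : ℕ, (k : ℝ) / 2 ^ n ≤ bin x ∧
    bin x ≤ (k + 1 : ℝ) / 2 ^ n ∧ (∀ i < n, (i ∈ x ↔ k.testBit (n - 1 - i) = true)) := by
  obtain ⟨k, hk1, hk2⟩ := hfdef_head x n
  have h1 := Real.ofDigits_eq_sum_add_ofDigits (hfdg x) n
  rw [hk1] at h1
  have h2 := Real.ofDigits_nonneg (fun i => hfdg x (i + n))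
  have h3 := Real.ofDigits_le_one (fun i => hfdg x (i + n))
  have h4 : (0 : ℝ) < ((2 : ℕ) : ℝ) ^ n := by positivity
  have h5 : (((2 : ℕ) : ℝ) ^ n)⁻¹ * Real.ofDigits (fun i => hfdg x (i + n)) ≤
      (((2 : ℕ) : ℝ) ^ n)⁻¹ * 1 := mul_le_mul_of_nonneg_left h3 (inv_nonneg.2 h4.le)
  have h6 : 0 ≤ (((2 : ℕ) : ℝ) ^ n)⁻¹ * Real.ofDigits (fun i => hfdg x (i + n)) :=
    mul_nonneg (inv_nonneg.2 h4.le) h2
  refine ⟨k, ?_, ?_, hk2⟩
  · rw [hfdef_bin, h1]
    linarith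
  · rw [hfdef_bin, h1, add_div, one_div]
    have h7 : (((2 : ℕ) : ℝ) ^ n)⁻¹ = ((2 : ℝ) ^ n)⁻¹ := by norm_num
    rw [h7] at h5 ⊢
    linarith

end HF
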