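import Pool.Agent.H71.HF.DownA

/-!
# DOWN: Hausdorff dimension zero gives combinatorial covers
-/

set_option autoImplicit false

open MeasureTheory ENNReal

namespace HF

/-- the levels: given weights `w i` of small sum, there are `a i` with
`2 ^ (-(a i + 2)) < w i ≤ 2 ^ (-(a i + 1))` -/
theorem hfdown_level {w : ℕ → ℝ≥0∞} (hpos : ∀ i, w i ≠ 0) (hle : ∀ i, w i ≤ 1 / 2) :
    ∃ a : ℕ → ℕ, (∀ i, (1 / 2 : ℝ≥0∞) ^ (a i + 2) < w i) ∧
      ∀ i, w i ≤ (1 / 2 : ℝ≥0∞) ^ (a i + 1) := by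
  have hex : ∀ i, ∃ m : ℕ, (1 / 2 : ℝ≥0∞) ^ (m + 2) < w i := by
    intro i
    have h1 : Filter.Tendsto (fun m : ℕ => (1 / 2 : ℝ≥0∞) ^ m) Filter.atTop (nhds 0) :=
      ENNReal.tendsto_pow_atTop_nhds_zero_of_lt_one (by
        rw [one_div]; exact ENNReal.one_half_lt_one)
    have h2 := (h1.comp (Filter.tendsto_add_atTop_nat 2)).eventually
      (gt_mem_nhds (pos_iff_ne_zero.mpr (hpos i)))
    obtain ⟨m, hm⟩ := h2.exists
    exact ⟨m, hm⟩
  classical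
  refine ⟨fun i => Nat.find (hex i), fun i => Nat.find_spec (hex i), fun i => ?_⟩
  show w i ≤ (1 / 2 : ℝ≥0∞) ^ (Nat.find (hex i) + 1)
  rcases Nat.eq_zero_or_pos (Nat.find (hex i)) with hk | hk
  · rw [hk, zero_add, pow_one]
    exact hle i
  · obtain ⟨m, hm⟩ : ∃ m, Nat.find (hex i) = m + 1 := ⟨Nat.find (hex i) - 1, by omega⟩
    have h3 : ¬ (1 / 2 : ℝ≥0∞) ^ (m + 2) < w i := Nat.find_min (hex i) (by omega)
    rw [hm]
    exact not_lt.mp h3

theorem hfdown_count {w : ℕ → ℝ≥0∞} (hw : ∑' i, w i ≤ 1 / 72) {a : ℕ → ℕ}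
    (ha : ∀ i, (1 / 2 : ℝ≥0∞) ^ (a i + 2) < w i) (m : ℕ) :
    ∃ F : Finset ℕ, 9 * F.card ≤ 2 ^ m ∧ ∀ i, a i = m → i ∈ F := by
  have hne : (1 / 72 : ℝ≥0∞) ≠ ⊤ := by
    rw [one_div]
    exact ENNReal.inv_ne_top.mpr (by norm_num)
  have hε : (1 / 2 : ℝ≥0∞) ^ (m + 2) ≠ 0 := by
    apply pow_ne_zero
    rw [one_div]
    exact ENNReal.inv_ne_zero.mpr (by norm_num)
  obtain ⟨hf, hcard⟩ := ENNReal.finset_card_const_le_le_of_tsum_le hne hw hε
  refine ⟨hf.toFinset, ?_, fun i hi => ?_⟩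
  · have h1 : (1 / 72 : ℝ≥0∞) / (1 / 2 : ℝ≥0∞) ^ (m + 2) = ((2 ^ (m + 2) : ℕ) : ℝ≥0∞) / 72 := by
      rw [one_div, one_div, ← ENNReal.inv_pow, div_eq_mul_inv, inv_inv, div_eq_mul_inv, mul_comm]
      push_cast
      rfl
    rw [h1, ENNReal.le_div_iff_mul_le (Or.inl (by norm_num)) (Or.inl (by norm_num))] at hcard
    have h2 : hf.toFinset.card * 72 ≤ 2 ^ (m + 2) := by exact_mod_cast hcard
    have h3 : ∀ c : ℕ, c * 72 ≤ 2 ^ (m + 2) → 9 * c ≤ 2 ^ m := by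
      intro c hc
      rw [pow_add] at hc
      omega
    exact h3 _ h2
  · rw [Set.Finite.mem_toFinset]
    show (1 / 2 : ℝ≥0∞) ^ (m + 2) ≤ w i
    rw [← hi]
    exact (ha i).le

/-- Let `K` be given (`K ≥ 1` without loss of generality), `d = 1 / (2 * K)` and `ε` small, and take a
cover `t` from `exists_cover` for `d`, `ε`. For `i` let `n i` be a number with
`diam (t i) < 2 ^ (- n i)` and, if the diameter is positive, `2 ^ (- (n i + 1)) ≤ diam (t i)`;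
if the diameter is `0` choose `n i = K * (i + 5)` or similar (so few `i` have the same `n i`). The
number of the `i` with `n i = n` and positive diameter is at most `ε * 2 ^ ((n + 1) * d)`. So at
most `2 ^ m` of the pairs `(i, j)`, `j : Fin 9`, have `n i / K = m + 1` (for `ε` small), and
`n i ≥ K` for all `i`. Put `a (i, j) = n i / K - 1` and use `exists_assign`, `exists_boxes`. -/
theorem comb2_of_dimH {Z : Set (Set ℕ × Set ℕ)} (h : dimH (bin2 '' Z) = 0) : Comb2 Z := by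
  classical
  intro K
  rcases Nat.eq_zero_or_pos K with rfl | hK
  · refine ⟨fun _ _ => ∅, fun _ _ => ∅, fun z _ => ⟨0, ∅, by simp, ?_, ?_⟩⟩ <;>
    · intro i hi
      omega
  have hKne : K ≠ 0 := hK.ne'
  have hd : (0 : ℝ) < ((K : ℝ)⁻¹) := by positivity
  have h144 : (0 : ℝ≥0∞) < 1 / 144 := by
    rw [one_div]
    exact ENNReal.inv_pos.mpr (by norm_num)
  have h144' : (1 / 144 : ℝ≥0∞) ≠ ⊤ := by
    rw [one_div]
    exact ENNReal.inv_ne_top.mpr (by norm_num)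
  obtain ⟨t, hcov, hsum⟩ := exists_cover h hd h144
  obtain ⟨η, hη, hηs⟩ := ENNReal.exists_pos_sum_of_countable h144.ne' ℕ
  set w : ℕ → ℝ≥0∞ := fun i => Metric.ediam (t i) ^ ((K : ℝ)⁻¹) + (η i : ℝ≥0∞) with hwdef
  have hwsum : ∑' i, w i ≤ 1 / 72 := by
    rw [hwdef, ENNReal.tsum_add]
    calc ∑' i, Metric.ediam (t i) ^ ((K : ℝ)⁻¹) + ∑' i, (η i : ℝ≥0∞)
        ≤ 1 / 144 + 1 / 144 := add_le_add hsum hηs.le
      _ = 1 / 72 := by
          rw [ENNReal.div_add_div_same]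
          norm_num
          rw [show (144 : ℝ≥0∞) = 2 * 72 by norm_num, ENNReal.div_eq_inv_mul,
            ENNReal.mul_inv (Or.inl (by norm_num)) (Or.inl (by norm_num)), mul_comm, ← mul_assoc,
            ENNReal.mul_inv_cancel (by norm_num) (by norm_num), one_mul]
  have h72 : (1 / 72 : ℝ≥0∞) ≤ 1 / 2 := by
    rw [one_div, one_div]
    exact ENNReal.inv_le_inv.mpr (by norm_num)
  have hwle : ∀ i, w i ≤ 1 / 2 := fun i => (ENNReal.le_tsum i).trans (hwsum.trans h72)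
  have hwpos : ∀ i, w i ≠ 0 := fun i => by
    have h1 : (0 : ℝ≥0∞) < (η i : ℝ≥0∞) := by exact_mod_cast hη i
    exact (lt_of_lt_of_le h1 le_add_self).ne'
  obtain ⟨a, ha1, ha2⟩ := hfdown_level hwpos hwle
  have ht : ∀ i, Metric.ediam (t i) < (1 / 2 : ℝ≥0∞) ^ (K * (a i + 1)) := by
    intro i
    have h1 : Metric.ediam (t i) ^ ((K : ℝ)⁻¹) ≠ ⊤ := by
      have h2 : Metric.ediam (t i) ^ ((K : ℝ)⁻¹) ≤ 1 / 144 := (ENNReal.le_tsum i).trans hsum
      exact ne_top_of_le_ne_top h144' h2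
    have h2 : Metric.ediam (t i) ^ ((K : ℝ)⁻¹) < w i := by
      refine ENNReal.lt_add_right h1 ?_
      exact_mod_cast (hη i).ne'
    have h3 : Metric.ediam (t i) ^ ((K : ℝ)⁻¹) < (1 / 2 : ℝ≥0∞) ^ (a i + 1) :=
      lt_of_lt_of_le h2 (ha2 i)
    have h4 := (ENNReal.pow_lt_pow_left_iff hKne).mpr h3
    rw [ENNReal.rpow_inv_natCast_pow hKne, ← pow_mul, mul_comm (a i + 1) K] at h4
    exact h4
  choose b hb using fun i => exists_boxes (K * (a i + 1)) (t i) (ht i)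
  have hassign : ∀ m, ∃ F : Finset ℕ, F.card ≤ 2 ^ m ∧
      ∀ k, (fun _ : ℕ => True) k → a (k / 9) = m → k ∈ F := by
    intro m
    obtain ⟨F, hF, hF'⟩ := hfdown_count hwsum ha1 m
    refine ⟨(F ×ˢ Finset.range 9).image (fun p => 9 * p.1 + p.2), ?_, ?_⟩
    · refine Finset.card_image_le.trans ?_
      rw [Finset.card_product, Finset.card_range]
      omega
    · intro k _ hk
      rw [Finset.mem_image]
      refine ⟨(k / 9, k % 9), ?_, ?_⟩
      · rw [Finset.mem_product]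
        exact ⟨hF' _ hk, Finset.mem_range.mpr (Nat.mod_lt _ (by norm_num))⟩
      · show 9 * (k / 9) + k % 9 = k
        omega
  obtain ⟨s, hs1, hs2⟩ := exists_assign (fun k => a (k / 9)) (fun _ => True) hassign
  let bx : ℕ → Set ℕ × Set ℕ := fun k => b (k / 9) ⟨k % 9, Nat.mod_lt _ (by norm_num)⟩
  let bo : ℕ → Finset ℕ → Set ℕ × Set ℕ := fun m σ =>
    if h : ∃ k, a (k / 9) = m ∧ s k = σ then bx h.choose else (∅, ∅)
  have hbo : ∀ k, bo (a (k / 9)) (s k) = bx k := by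
    intro k
    have hk : ∃ k', a (k' / 9) = a (k / 9) ∧ s k' = s k := ⟨k, rfl, rfl⟩
    have h1 : bo (a (k / 9)) (s k) = bx hk.choose := dif_pos hk
    rw [h1, hs2 _ _ trivial trivial hk.choose_spec.1 hk.choose_spec.2]
  refine ⟨fun m σ => (bo m σ).1, fun m σ => (bo m σ).2, fun z hz => ?_⟩
  obtain ⟨i, hi⟩ := Set.mem_iUnion.mp (hcov ⟨z, hz, rfl⟩)
  obtain ⟨j, hj1, hj2⟩ := hb i z hi
  have hk1 : (9 * i + j.1) / 9 = i := by
    have := j.2
    omega
  have hk2 : (9 * i + j.1) % 9 = j.1 := by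
    have := j.2
    omega
  have hbx : bx (9 * i + j.1) = b i j := by
    show b ((9 * i + j.1) / 9) ⟨(9 * i + j.1) % 9, _⟩ = b i j
    have e : (⟨(9 * i + j.1) % 9, Nat.mod_lt _ (by norm_num)⟩ : Fin 9) = j := Fin.ext hk2
    rw [e, hk1]
  have hbo' := hbo (9 * i + j.1)
  rw [hbx, hk1] at hbo'
  have hsub := hs1 (9 * i + j.1) trivial
  simp only [hk1] at hsub
  refine ⟨a i, s (9 * i + j.1), hsub, ?_, ?_⟩
  · intro l hl
    simp only [hbo']
    exact hj1 l hl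
  · intro l hl
    simp only [hbo']
    exact hj2 l hl

end HF
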