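import Pool.Agent.H71.HF.Defs

/-!
# DOWNA: lemmas for DOWN
-/

set_option autoImplicit false

open MeasureTheory ENNReal

namespace HF

/-- countably many boxes `i` with numbers `a i`, at most `2 ^ m` of them with `a i = m`, can be numbered by
the pairs `(m, s)`, `s ⊆ range m`, `m = a i` -/
theorem exists_assign (a : ℕ → ℕ) (P : ℕ → Prop)
    (ha : ∀ m, ∃ F : Finset ℕ, F.card ≤ 2 ^ m ∧ ∀ i, P i → a i = m → i ∈ F) :
    ∃ s : ℕ → Finset ℕ, (∀ i, P i → s i ⊆ Finset.range (a i)) ∧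
      ∀ i j, P i → P j → a i = a j → s i = s j → i = j := by
  classical
  choose F hF1 hF2 using ha
  have he : ∀ m, Nonempty (↥(F m) ↪ ↥((Finset.range m).powerset)) := by
    intro m
    apply Function.Embedding.nonempty_of_card_le
    rw [Fintype.card_coe, Fintype.card_coe, Finset.card_powerset, Finset.card_range]
    exact hF1 m
  let e : ∀ m, ↥(F m) ↪ ↥((Finset.range m).powerset) := fun m => (he m).some
  refine ⟨fun i => if h : i ∈ F (a i) then (e (a i) ⟨i, h⟩ : Finset ℕ) else ∅, ?_, ?_⟩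
  · intro i hi
    simp only
    rw [dif_pos (hF2 (a i) i hi rfl)]
    exact Finset.mem_powerset.1 (e (a i) ⟨i, _⟩).2
  · intro i j hi hj hij hs
    simp only at hs
    rw [dif_pos (hF2 (a i) i hi rfl), dif_pos (hF2 (a j) j hj rfl)] at hs
    have key : ∀ (m : ℕ) (h1 : i ∈ F m) (m' : ℕ) (h2 : j ∈ F m'), m = m' →
        ((e m ⟨i, h1⟩ : Finset ℕ)) = (e m' ⟨j, h2⟩ : Finset ℕ) → i = j := by
      intro m h1 m' h2 hm heq
      subst hm
      have h3 : e m ⟨i, h1⟩ = e m ⟨j, h2⟩ := Subtype.ext heq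
      have h4 := (e m).injective h3
      exact congrArg Subtype.val h4
    exact key _ _ _ _ hij hs

theorem downA_line (n : ℕ) (T : Set ℝ)
    (hT : ∀ x ∈ T, ∀ y ∈ T, |x - y| < (1 / 2 : ℝ) ^ n) :
    ∃ b : Fin 3 → Set ℕ, ∀ x : Set ℕ, bin x ∈ T → ∃ j, ∀ i < n, (i ∈ x ↔ i ∈ b j) := by
  classical
  by_cases hne : ∃ k : ℕ, ∃ x : Set ℕ, bin x ∈ T ∧ (k : ℝ) / 2 ^ n ≤ bin x ∧
    bin x ≤ (k + 1 : ℝ) / 2 ^ n ∧ (∀ i < n, (i ∈ x ↔ k.testBit (n - 1 - i) = true))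
  · obtain ⟨x0, hx0, h1, h2, h3⟩ := Nat.find_spec hne
    set k0 := Nat.find hne with hk0
    refine ⟨fun j => {i | (k0 + j).testBit (n - 1 - i) = true}, fun x hx => ?_⟩
    obtain ⟨k, h4, h5, h6⟩ := exists_head n x
    have hmin : k0 ≤ k := Nat.find_min' hne ⟨x, hx, h4, h5, h6⟩
    have hd := hT _ hx _ hx0
    have hpow : (0 : ℝ) < 2 ^ n := by positivity
    have h7 : (k : ℝ) < k0 + 2 := by
      have h8 : bin x < bin x0 + (1 / 2 : ℝ) ^ n := by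
        have := (abs_lt.1 hd).2
        linarith
      have h9 : (1 / 2 : ℝ) ^ n = 1 / 2 ^ n := by rw [one_div_pow]
      have h10 : (k : ℝ) / 2 ^ n < ((k0 : ℝ) + 2) / 2 ^ n := by
        calc (k : ℝ) / 2 ^ n ≤ bin x := h4
          _ < bin x0 + (1 / 2 : ℝ) ^ n := h8
          _ ≤ (k0 + 1 : ℝ) / 2 ^ n + 1 / 2 ^ n := by rw [h9]; linarith
          _ = ((k0 : ℝ) + 2) / 2 ^ n := by rw [← add_div]; ring
      exact (div_lt_div_iff_of_pos_right hpow).1 h10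
    have h8 : k < k0 + 2 := by exact_mod_cast h7
    refine ⟨⟨k - k0, by omega⟩, fun i hi => ?_⟩
    rw [h6 i hi]
    have h9 : k0 + (k - k0) = k := by omega
    show _ ↔ (k0 + (k - k0)).testBit (n - 1 - i) = true
    rw [h9]
  · refine ⟨fun _ => ∅, fun x hx => ?_⟩
    obtain ⟨k, h4, h5, h6⟩ := exists_head n x
    exact absurd ⟨k, x, hx, h4, h5, h6⟩ hne

/-- a set of diameter less than `2 ^ (-n)` in the plane meets the images of at most `9` boxes of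
order `n`: the first `n` digits of the points of the preimage are given by at most `3 * 3` pairs
(`exists_head`: if `|bin x - bin y| < 2 ^ (-n)` the numbers `k` differ by at most `2`; so all `k`
are among three consecutive numbers, taking the least one) -/
theorem exists_boxes (n : ℕ) (t : Set (ℝ × ℝ)) (ht : Metric.ediam t < (1 / 2 : ℝ≥0∞) ^ n) :
    ∃ b : Fin 9 → Set ℕ × Set ℕ, ∀ z, bin2 z ∈ t → ∃ j, (∀ i < n, (i ∈ z.1 ↔ i ∈ (b j).1)) ∧
      ∀ i < n, (i ∈ z.2 ↔ i ∈ (b j).2) := by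
  have hd : ∀ p ∈ t, ∀ q ∈ t, dist p q < (1 / 2 : ℝ) ^ n := by
    intro p hp q hq
    have h1 : edist p q < (1 / 2 : ℝ≥0∞) ^ n := (Metric.edist_le_ediam_of_mem hp hq).trans_lt ht
    have h2 : ((1 / 2 : ℝ≥0∞) ^ n) = ENNReal.ofReal ((1 / 2 : ℝ) ^ n) := by
      rw [ENNReal.ofReal_pow (by norm_num), ENNReal.ofReal_div_of_pos (by norm_num)]
      simp
    rw [h2, edist_dist] at h1
    exact (ENNReal.ofReal_lt_ofReal_iff (by positivity)).1 h1
  obtain ⟨b1, hb1⟩ := downA_line n (Prod.fst '' t) (by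
    rintro _ ⟨p, hp, rfl⟩ _ ⟨q, hq, rfl⟩
    refine lt_of_le_of_lt ?_ (hd p hp q hq)
    rw [← Real.dist_eq, Prod.dist_eq]
    exact le_max_left _ _)
  obtain ⟨b2, hb2⟩ := downA_line n (Prod.snd '' t) (by
    rintro _ ⟨p, hp, rfl⟩ _ ⟨q, hq, rfl⟩
    refine lt_of_le_of_lt ?_ (hd p hp q hq)
    rw [← Real.dist_eq, Prod.dist_eq]
    exact le_max_right _ _)
  refine ⟨fun j => (b1 ((finProdFinEquiv (m := 3) (n := 3)).symm j).1,
    b2 ((finProdFinEquiv (m := 3) (n := 3)).symm j).2), fun z hz => ?_⟩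
  obtain ⟨j1, hj1⟩ := hb1 z.1 ⟨bin2 z, hz, rfl⟩
  obtain ⟨j2, hj2⟩ := hb2 z.2 ⟨bin2 z, hz, rfl⟩
  refine ⟨finProdFinEquiv (j1, j2), ?_, ?_⟩
  · intro i hi
    simp only [Equiv.symm_apply_apply]
    exact hj1 i hi
  · intro i hi
    simp only [Equiv.symm_apply_apply]
    exact hj2 i hi

/-- for all `d > 0` and `ε > 0` there is a cover `t n` with `∑ diam (t n) ^ d ≤ ε`
(`Measure.hausdorffMeasure_apply`, `μH[d] S = 0`) -/
theorem exists_cover {S : Set (ℝ × ℝ)} (h : dimH S = 0) {d : ℝ} (hd : 0 < d) {ε : ℝ≥0∞}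
    (hε : 0 < ε) : ∃ t : ℕ → Set (ℝ × ℝ), S ⊆ (⋃ n, t n) ∧ (∑' n, Metric.ediam (t n) ^ d) ≤ ε := by
  have h0 : μH[d] S = 0 := by
    have h1 : dimH S < ((d.toNNReal : NNReal) : ℝ≥0∞) := by
      rw [h]
      exact_mod_cast (Real.toNNReal_pos.2 hd)
    have h2 := hausdorffMeasure_of_dimH_lt h1
    rwa [Real.coe_toNNReal d hd.le] at h2
  rw [Measure.hausdorffMeasure_apply] at h0
  have h3 : (⨅ (t : ℕ → Set (ℝ × ℝ)) (_ : S ⊆ ⋃ n, t n) (_ : ∀ n, Metric.ediam (t n) ≤ 1),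
      ∑' n, ⨆ _ : (t n).Nonempty, Metric.ediam (t n) ^ d) = 0 := by
    refine le_antisymm ?_ bot_le
    rw [← h0]
    exact le_iSup₂_of_le (1 : ℝ≥0∞) one_pos le_rfl
  have h4 : (⨅ (t : ℕ → Set (ℝ × ℝ)) (_ : S ⊆ ⋃ n, t n) (_ : ∀ n, Metric.ediam (t n) ≤ 1),
      ∑' n, ⨆ _ : (t n).Nonempty, Metric.ediam (t n) ^ d) < ε := by rw [h3]; exact hε
  simp only [iInf_lt_iff] at h4
  obtain ⟨t, ht1, ht2, ht3⟩ := h4
  refine ⟨t, ht1, le_of_eq_of_le ?_ ht3.le⟩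
  congr 1
  funext n
  rcases (t n).eq_empty_or_nonempty with h5 | h5
  · rw [h5]
    simp [hd]
  · simp [h5]

end HF
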