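import Pool.Agent.H71.HF.Vdim

/-!
# VP: the pseudointersection number in the structure `(ZFSet, ∈)`
-/

set_option autoImplicit false

open Cardinal BV PK HM

namespace HF

/-- Kuratowski-finite sets are finite (apply the definition to the set of all finite subsets), and
conversely (induction) -/
theorem isFin_V (x : ZFSet.{0}) : IsFin VE x ↔ {z | z ∈ x}.Finite := by
  classical
  constructor
  · intro h
    have h1 : VE x ((ZFSet.powerset x).sep fun A => {z | z ∈ A}.Finite) := by
      refine h _ ?_ ?_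
      · intro e he
        have he' : e = ∅ := (ZFSet.eq_empty e).2 he
        subst he'
        refine ZFSet.mem_sep.2 ⟨ZFSet.mem_powerset.2 (ZFSet.empty_subset x), ?_⟩
        refine Set.finite_empty.subset fun z hz => ?_
        exact (ZFSet.notMem_empty z hz).elim
      · intro A a A' hA ha hA'
        obtain ⟨h2, h3⟩ := ZFSet.mem_sep.1 hA
        refine ZFSet.mem_sep.2 ⟨ZFSet.mem_powerset.2 fun z hz => ?_, ?_⟩
        · rcases (hA' z).1 hz with h4 | rfl
          · exact ZFSet.mem_powerset.1 h2 h4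
          · exact ha
        · refine (h3.insert a).subset fun z hz => ?_
          rcases (hA' z).1 hz with h4 | rfl
          · exact Or.inr h4
          · exact Or.inl rfl
    exact (ZFSet.mem_sep.1 h1).2
  · intro hx F h0 h1
    have h2 : ∀ s : Finset ZFSet.{0}, (∀ z ∈ s, z ∈ x) → ∃ A : ZFSet.{0}, A ∈ F ∧
        ∀ z, z ∈ A ↔ z ∈ s := by
      intro s
      induction s using Finset.induction_on with
      | empty =>
        intro _
        exact ⟨∅, h0 ∅ fun z hz => ZFSet.notMem_empty z hz,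
          fun z => ⟨fun hz => (ZFSet.notMem_empty z hz).elim, fun hz => by simp at hz⟩⟩
      | insert a s _ ih =>
        intro hs
        obtain ⟨A, hA, hA'⟩ := ih fun z hz => hs z (Finset.mem_insert_of_mem hz)
        refine ⟨insert a A, h1 A a _ hA (hs a (Finset.mem_insert_self a s)) fun z => ?_, fun z => ?_⟩
        · change z ∈ insert a A ↔ z ∈ A ∨ z = a
          rw [ZFSet.mem_insert_iff]
          exact or_comm
        · rw [ZFSet.mem_insert_iff, Finset.mem_insert, hA']
    obtain ⟨A, hA, hA'⟩ := h2 hx.toFinset fun z hz => (hx.mem_toFinset).1 hz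
    have h3 : A = x := ZFSet.ext fun z => (hA' z).trans hx.mem_toFinset
    rw [← h3]
    exact hA

theorem vp_enc_injective : Function.Injective enc := fun a b h => by
  rw [← dec_enc a, h, dec_enc]

/-- for a set `F` of reals -/
theorem sfip_V (F : ZFSet.{0}) (hF : ∀ A, A ∈ F → IsReal VE omz A) : SFIP VE omz F ↔
    ∀ G : Finset (Set ℕ), (∀ A ∈ G, enc A ∈ F) → (⋂ A ∈ G, A).Infinite := by
  classical
  constructor
  · intro h G hG
    refine Set.infinite_of_forall_exists_gt fun m => ?_
    set G' : ZFSet.{0} := F.sep fun z => ∃ A ∈ G, z = enc A with hG'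
    have h1 : IsFin VE G' := by
      rw [isFin_V]
      refine (G.finite_toSet.image enc).subset fun z hz => ?_
      obtain ⟨_, A, hA, rfl⟩ := ZFSet.mem_sep.1 hz
      exact ⟨A, hA, rfl⟩
    obtain ⟨n, hn, hmn, hnG⟩ := h G' h1 (fun A hA => (ZFSet.mem_sep.1 hA).1) (num m)
      ((mem_omz _).2 ⟨m, rfl⟩)
    obtain ⟨k, rfl⟩ := (mem_omz _).1 hn
    refine ⟨k, ?_, (num_mem_num m k).1 hmn⟩
    rw [Set.mem_iInter₂]
    intro A hA
    have h2 : num k ∈ enc A := hnG (enc A) (ZFSet.mem_sep.2 ⟨hG A hA, A, hA, rfl⟩)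
    have h3 : k ∈ dec (enc A) := h2
    rwa [dec_enc] at h3
  · intro h G hG hGF m hm
    obtain ⟨j, rfl⟩ := (mem_omz _).1 hm
    have h1 := (isFin_V G).1 hG
    obtain ⟨k, hk, hjk⟩ := (h (h1.toFinset.image dec) (by
      intro A hA
      obtain ⟨z, hz, rfl⟩ := Finset.mem_image.1 hA
      have hz' : z ∈ G := h1.mem_toFinset.1 hz
      rw [enc_dec (hF z (hGF z hz'))]
      exact hGF z hz')).exists_gt j
    refine ⟨num k, (mem_omz _).2 ⟨k, rfl⟩, (num_mem_num j k).2 hjk, fun A hA => ?_⟩
    rw [Set.mem_iInter₂] at hk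
    have h2 : k ∈ dec A := hk (dec A) (Finset.mem_image_of_mem _ (h1.mem_toFinset.2 hA))
    exact h2

/-- translate the families: `F` and `{enc A | A ∈ F}`; `injOn_V`; sets of size at most `#X` inject
into `X` -/
theorem belowP_V (X : ZFSet.{0}) : BelowP VE omz X ↔ Below X.card := by
  classical
  constructor
  · intro h F hFX hFinf hFG
    by_contra hno
    set F' : ZFSet.{0} := ZFSet.range (fun A : F => enc A.1) with hF'
    have hmem : ∀ z, z ∈ F' ↔ ∃ A ∈ F, z = enc A := by
      intro z
      rw [hF', ZFSet.mem_range]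
      constructor
      · rintro ⟨A, rfl⟩
        exact ⟨A.1, A.2, rfl⟩
      · rintro ⟨A, hA, rfl⟩
        exact ⟨⟨A, hA⟩, rfl⟩
    have hreal : ∀ A, A ∈ F' → IsReal VE omz A := by
      intro A hA
      obtain ⟨a, _, rfl⟩ := (hmem A).1 hA
      exact isReal_enc a
    have hcard : F'.card ≤ X.card := by
      refine le_trans ?_ hFX
      have h1 : lift.{0} F'.card ≤ lift.{0} #F := ZFSet.lift_card_range_le
      rwa [Cardinal.lift_id, Cardinal.lift_id] at h1
    obtain ⟨g, hg⟩ := (injOn_V F' X).2 hcard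
    refine h F' hreal ?_ ?_ g hg
    · rw [sfip_V F' hreal]
      intro G hG
      refine hFG G fun A hA => ?_
      obtain ⟨B, hB, hAB⟩ := (hmem _).1 (hG A hA)
      rw [vp_enc_injective hAB]
      exact hB
    · rintro ⟨A, _, hA2, hA3⟩
      refine hno ⟨dec A, (unbdd_V A).1 hA2, fun C hC => ?_⟩
      have h1 := (almostSub_V A (enc C)).1 (hA3 (enc C) ((hmem _).2 ⟨C, hC, rfl⟩))
      rwa [dec_enc] at h1
  · intro h F hF hS hno g hg
    have hcard : F.card ≤ X.card := (injOn_V F X).1 ⟨g, hg⟩
    have hS' := (sfip_V F hF).1 hS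
    have hF0 : #{A : Set ℕ | enc A ∈ F} ≤ F.card := by
      have h2 : #{z // z ∈ F} = lift.{1, 0} F.card := ZFSet.cardinalMk_coe_sort
      have h1 : lift.{1} #{A : Set ℕ | enc A ∈ F} ≤ lift.{0} #{z // z ∈ F} :=
        Cardinal.lift_mk_le'.2 ⟨⟨fun A => ⟨enc A.1, A.2⟩, fun A B hAB =>
          Subtype.ext (vp_enc_injective (congrArg Subtype.val hAB))⟩⟩
      rw [Cardinal.lift_uzero, h2] at h1
      exact Cardinal.lift_le.1 h1
    obtain ⟨B, hB, hBF⟩ := h {A : Set ℕ | enc A ∈ F} (hF0.trans hcard) (by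
      intro A hA
      have h1 := hS' {A} (by
        intro B hB
        rw [Finset.mem_singleton.1 hB]
        exact hA)
      simpa using h1) (fun G hG => hS' G fun A hA => hG hA)
    refine hno ⟨enc B, isReal_enc B, ?_, fun C hC => ?_⟩
    · rw [unbdd_V, dec_enc]
      exact hB
    · rw [almostSub_V, dec_enc]
      refine hBF (dec C) ?_
      change enc (dec C) ∈ F
      rw [enc_dec (hF C hC)]
      exact hC

end HF
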