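import Pool.Agent.H71.HF.One
import Pool.Agent.H71.HF.Vp

/-!
# FAITH: in the real world (the structure `(ZFSet, ∈)`) the sentence there are `w`, `X`, `Y` with
`IsCounter w X Y` is equivalent to the negation of the frozen statement S14301
-/

set_option autoImplicit false

open Cardinal BV PK HM

namespace HF

/-- the sets of natural numbers coded by the elements of `X` -/
def hffaith_A (X : ZFSet.{0}) : Set (Set ℕ) := {a | ∃ x, VE x X ∧ a = dec x}

/-- the set of the codes of the elements of `A` -/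
noncomputable def hffaith_E (A : Set (Set ℕ)) : ZFSet.{0} := ZFSet.range fun a : A => enc a.1

theorem hffaith_below_mono {c d : Cardinal.{0}} (h : c ≤ d) (hd : Below d) : Below c := by
  intro F hF h1 h2
  exact hd F (hF.trans h) h1 h2

theorem hffaith_mk_A (X : ZFSet.{0}) : #(hffaith_A X) ≤ X.card := by
  have h1 : #{z // z ∈ X} = lift.{1, 0} X.card := ZFSet.cardinalMk_coe_sort
  have h2 : lift.{1} #(hffaith_A X) ≤ lift.{0} #{z // z ∈ X} := by
    have hsurj : ∀ a : hffaith_A X, ∃ z : {z // z ∈ X}, a.1 = dec z.1 := by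
      rintro ⟨a, x, hx, rfl⟩
      exact ⟨⟨x, hx⟩, rfl⟩
    choose g hg using hsurj
    refine Cardinal.lift_mk_le'.2 ⟨⟨g, ?_⟩⟩
    intro a b hab
    exact Subtype.ext ((hg a).trans ((congrArg (fun z => dec z.1) hab).trans (hg b).symm))
  rw [h1, Cardinal.lift_id'] at h2
  exact Cardinal.lift_le.1 h2

theorem hffaith_card_E (A : Set (Set ℕ)) : (hffaith_E A).card ≤ #A := by
  have h := ZFSet.lift_card_range_le (f := fun a : A => enc a.1)
  rw [Cardinal.lift_id, Cardinal.lift_id] at h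
  exact h

theorem hffaith_mem_E (A : Set (Set ℕ)) (x : ZFSet.{0}) :
    VE x (hffaith_E A) ↔ ∃ a ∈ A, x = enc a := by
  show x ∈ hffaith_E A ↔ _
  unfold hffaith_E
  rw [ZFSet.mem_range]
  constructor
  · rintro ⟨a, rfl⟩
    exact ⟨a.1, a.2, rfl⟩
  · rintro ⟨a, ha, rfl⟩
    exact ⟨⟨a, ha⟩, rfl⟩

theorem hffaith_A_E (A : Set (Set ℕ)) : hffaith_A (hffaith_E A) = A := by
  ext a
  constructor
  · rintro ⟨x, hx, rfl⟩
    obtain ⟨b, hb, rfl⟩ := (hffaith_mem_E A x).1 hx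
    rw [dec_enc]
    exact hb
  · intro ha
    exact ⟨enc a, (hffaith_mem_E A _).2 ⟨a, ha, rfl⟩, (dec_enc a).symm⟩

theorem hffaith_prod (X Y : ZFSet.{0}) :
    {a : Set ℕ × Set ℕ | ∃ x y, (VE x X ∧ VE y Y) ∧ a = (dec x, dec y)} =
      hffaith_A X ×ˢ hffaith_A Y := by
  ext ⟨a, b⟩
  rw [Set.mem_prod]
  constructor
  · rintro ⟨x, y, ⟨hx, hy⟩, h⟩
    obtain ⟨rfl, rfl⟩ := Prod.mk.injEq _ _ _ _ ▸ h
    exact ⟨⟨x, hx, rfl⟩, ⟨y, hy, rfl⟩⟩
  · rintro ⟨⟨x, hx, h1⟩, ⟨y, hy, h2⟩⟩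
    exact ⟨x, y, ⟨hx, hy⟩, Prod.ext h1 h2⟩

theorem hffaith_image (A C : Set (Set ℕ)) : (bin '' A) ×ˢ (bin '' C) = bin2 '' (A ×ˢ C) := by
  ext ⟨s, t⟩
  constructor
  · rintro ⟨⟨a, ha, h1⟩, ⟨c, hc, h2⟩⟩
    exact ⟨(a, c), ⟨ha, hc⟩, Prod.ext h1 h2⟩
  · rintro ⟨⟨a, c⟩, ⟨ha, hc⟩, h⟩
    exact ⟨⟨a, ha, congrArg Prod.fst h⟩, ⟨c, hc, congrArg Prod.snd h⟩⟩

/-- (→) `w = ω` by `isOmega_V`; put `X' = bin '' {dec x | x ∈ X}` and similarly `Y'`; `#X' ≤ X.card`;
`dimZero1_V`, `comb1_iff`, `dimZero2_V`, `comb2_iff`. (←) take `A`, `C` from `exists_digits` and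
`X = {enc a | a ∈ A}`, `Y = {enc c | c ∈ C}`; `X.card = #A ≤ #X'`. -/
theorem counter_iff : (∃ w X Y : ZFSet.{0}, IsCounter VE w X Y) ↔ ¬ Main := by
  constructor
  · rintro ⟨w, X, Y, h⟩ hM
    obtain ⟨h1, h2, h3, h4, h5, h6⟩ := h
    have hw : w = omz := (isOmega_V w).1 h1
    subst hw
    have hX : #(bin '' hffaith_A X) ≤ X.card := Cardinal.mk_image_le.trans (hffaith_mk_A X)
    have hB : Below #(bin '' hffaith_A X) :=
      hffaith_below_mono hX ((belowP_V X).1 h4)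
    have hY : dimH (bin '' hffaith_A Y) = 0 :=
      (comb1_iff _).1 ((dimZero1_V (fun y => VE y Y) h3).1 h5)
    have hZ := hM (bin '' hffaith_A X) hB (bin '' hffaith_A Y) hY
    rw [hffaith_image] at hZ
    have hC := (comb2_iff _).2 hZ
    rw [← hffaith_prod] at hC
    exact h6 ((dimZero2_V (fun x y => VE x X ∧ VE y Y)
      (fun x y hxy => ⟨h2 x hxy.1, h3 y hxy.2⟩)).2 hC)
  · intro hM
    unfold Main at hM
    push Not at hM
    obtain ⟨X, hX, Y, hY, hXY⟩ := hM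
    obtain ⟨A, C, hA, hC, hAC⟩ := exists_digits X Y hY hXY
    have hreal : ∀ (D : Set (Set ℕ)) (x : ZFSet.{0}), VE x (hffaith_E D) → IsReal VE omz x := by
      intro D x hx
      obtain ⟨a, _, rfl⟩ := (hffaith_mem_E D x).1 hx
      exact isReal_enc a
    refine ⟨omz, hffaith_E A, hffaith_E C, (isOmega_V omz).2 rfl, hreal A, hreal C, ?_, ?_, ?_⟩
    · exact (belowP_V _).2 (hffaith_below_mono ((hffaith_card_E A).trans hA) hX)
    · refine (dimZero1_V (fun y => VE y (hffaith_E C)) (hreal C)).2 ?_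
      show Comb1 (hffaith_A (hffaith_E C))
      rw [hffaith_A_E]
      exact (comb1_iff _).2 hC
    · intro h
      have h1 := (dimZero2_V (fun x y => VE x (hffaith_E A) ∧ VE y (hffaith_E C))
        (fun x y hxy => ⟨hreal A x hxy.1, hreal C y hxy.2⟩)).1 h
      rw [hffaith_prod, hffaith_A_E, hffaith_A_E] at h1
      exact hAC ((comb2_iff _).1 h1)

end HF
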