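import Pool.Agent.H71.HF.Up
import Pool.Agent.H71.HF.Down

/-!
# ONE: the one-dimensional case, and the reduction from the real line to 0-1 sequences
-/

set_option autoImplicit false

open Cardinal

namespace HF

theorem one_bin_empty : bin ∅ = 0 := by
  unfold bin
  simp

theorem one_comb_iff (Y : Set (Set ℕ)) : Comb1 Y ↔ Comb2 ({∅} ×ˢ Y) := by
  constructor
  · intro h K
    obtain ⟨f, hf⟩ := h K
    refine ⟨fun _ _ => ∅, f, ?_⟩
    rintro ⟨x, y⟩ ⟨hx, hy⟩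
    obtain ⟨m, s, hs, hm⟩ := hf y hy
    have hx' : x = ∅ := hx
    subst hx'
    exact ⟨m, s, hs, fun i _ => Iff.rfl, hm⟩
  · intro h K
    obtain ⟨f, g, hg⟩ := h K
    refine ⟨g, fun y hy => ?_⟩
    obtain ⟨m, s, hs, _, hm⟩ := hg (∅, y) ⟨rfl, hy⟩
    exact ⟨m, s, hs, hm⟩

theorem one_isometry (a : ℝ) : Isometry (fun t : ℝ => (a, t)) := by
  refine Isometry.of_dist_eq fun s t => ?_
  rw [Prod.dist_eq]
  simp

theorem comb2_iff (Z : Set (Set ℕ × Set ℕ)) : Comb2 Z ↔ dimH (bin2 '' Z) = 0 :=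
  ⟨dimH_of_comb2, comb2_of_dimH⟩

/-- `Comb1 Y ↔ Comb2 ({∅} ×ˢ Y)`, and `bin2 '' ({∅} ×ˢ Y)` is an isometric image of
`bin '' Y` (`bin ∅ = 0`; the map `t ↦ (0, t)`) -/
theorem comb1_iff (Y : Set (Set ℕ)) : Comb1 Y ↔ dimH (bin '' Y) = 0 := by
  rw [one_comb_iff, comb2_iff]
  have h : bin2 '' ({∅} ×ˢ Y) = (fun t : ℝ => ((0 : ℝ), t)) '' (bin '' Y) := by
    ext p
    constructor
    · rintro ⟨⟨x, y⟩, ⟨hx, hy⟩, rfl⟩
      have hx' : x = ∅ := hx
      subst hx'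
      refine ⟨bin y, ⟨y, hy, rfl⟩, ?_⟩
      simp only [bin2, one_bin_empty]
    · rintro ⟨_, ⟨y, hy, rfl⟩, rfl⟩
      refine ⟨(∅, y), ⟨rfl, hy⟩, ?_⟩
      simp only [bin2, one_bin_empty]
  rw [h, (one_isometry 0).dimH_image]

/-- Let `X × Y` have positive dimension, `X, Y ⊆ ℝ`. By countable stability (`dimH_iUnion`) there are
integers `i`, `j` such that the part of `X × Y` in `[i, i + 1] × [j, j + 1]` has positive
dimension. Translate it to `[0, 1] × [0, 1]` (translations are isometries), and choose for every point of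
`X ∩ [i, i + 1] - i` one sequence of binary digits (`exists_bin`): this gives `A` with `#A ≤ #X`;
similarly `C` from `Y`. -/
theorem exists_digits (X Y : Set ℝ) (hY : dimH Y = 0) (h : dimH (X ×ˢ Y) ≠ 0) :
    ∃ A C : Set (Set ℕ), #A ≤ #X ∧ dimH (bin '' C) = 0 ∧ dimH (bin2 '' (A ×ˢ C)) ≠ 0 := by
  have hcov : X ×ˢ Y = ⋃ p : ℤ × ℤ,
      (X ∩ Set.Icc (p.1 : ℝ) (p.1 + 1)) ×ˢ (Y ∩ Set.Icc (p.2 : ℝ) (p.2 + 1)) := by
    ext ⟨x, y⟩
    simp only [Set.mem_prod, Set.mem_iUnion, Set.mem_inter_iff, Set.mem_Icc]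
    constructor
    · rintro ⟨hx, hy⟩
      exact ⟨(⌊x⌋, ⌊y⌋), ⟨hx, Int.floor_le x, (Int.lt_floor_add_one x).le⟩,
        ⟨hy, Int.floor_le y, (Int.lt_floor_add_one y).le⟩⟩
    · rintro ⟨_, ⟨hx, _⟩, ⟨hy, _⟩⟩
      exact ⟨hx, hy⟩
  have hex : ∃ p : ℤ × ℤ, dimH
      ((X ∩ Set.Icc (p.1 : ℝ) (p.1 + 1)) ×ˢ (Y ∩ Set.Icc (p.2 : ℝ) (p.2 + 1))) ≠ 0 := by
    by_contra hcon
    push Not at hcon
    apply h
    rw [hcov, dimH_iUnion]
    simp [hcon]
  obtain ⟨⟨i, j⟩, hij⟩ := hex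
  simp only at hij
  have hdig : ∀ t : ℝ, ∃ x : Set ℕ, t ∈ Set.Icc (0 : ℝ) 1 → bin x = t := by
    intro t
    by_cases ht : t ∈ Set.Icc (0 : ℝ) 1
    · obtain ⟨x, hx⟩ := exists_bin ht
      exact ⟨x, fun _ => hx⟩
    · exact ⟨∅, fun h => absurd h ht⟩
  choose dig hdig using hdig
  have hbin : ∀ (Z : Set ℝ) (k : ℤ), bin '' (dig '' ((fun t : ℝ => t - k) ''
      (Z ∩ Set.Icc (k : ℝ) (k + 1)))) = (fun t : ℝ => t - k) '' (Z ∩ Set.Icc (k : ℝ) (k + 1)) := by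
    intro Z k
    rw [Set.image_image, Set.image_image]
    refine Set.image_congr fun t ht => ?_
    apply hdig
    obtain ⟨_, h1, h2⟩ := ht
    constructor <;> linarith
  refine ⟨dig '' ((fun t : ℝ => t - i) '' (X ∩ Set.Icc (i : ℝ) (i + 1))),
    dig '' ((fun t : ℝ => t - j) '' (Y ∩ Set.Icc (j : ℝ) (j + 1))), ?_, ?_, ?_⟩
  · refine mk_image_le.trans (mk_image_le.trans ?_)
    exact mk_le_mk_of_subset Set.inter_subset_left
  · rw [hbin Y j]
    have hiso : Isometry (fun t : ℝ => t - j) := by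
      refine Isometry.of_dist_eq fun s t => ?_
      simp
    rw [hiso.dimH_image]
    exact le_antisymm ((dimH_mono Set.inter_subset_left).trans hY.le) bot_le
  · have h2 : bin2 '' ((dig '' ((fun t : ℝ => t - i) '' (X ∩ Set.Icc (i : ℝ) (i + 1)))) ×ˢ
        (dig '' ((fun t : ℝ => t - j) '' (Y ∩ Set.Icc (j : ℝ) (j + 1))))) =
        (fun p : ℝ × ℝ => (p.1 - i, p.2 - j)) ''
          ((X ∩ Set.Icc (i : ℝ) (i + 1)) ×ˢ (Y ∩ Set.Icc (j : ℝ) (j + 1))) := by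
      have h3 : ∀ A C : Set (Set ℕ), bin2 '' (A ×ˢ C) = (bin '' A) ×ˢ (bin '' C) := by
        intro A C
        exact (Set.prod_image_image_eq).symm
      rw [h3, hbin X i, hbin Y j, Set.prod_image_image_eq]
    rw [h2]
    have hiso : Isometry (fun p : ℝ × ℝ => (p.1 - (i : ℝ), p.2 - (j : ℝ))) := by
      refine Isometry.of_dist_eq fun s t => ?_
      simp [Prod.dist_eq]
    rw [hiso.dimH_image]
    exact hij

end HF
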