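import Pool.Agent.H71.HF.Defs

/-!
# UP: combinatorial covers give Hausdorff dimension zero
-/

set_option autoImplicit false

open MeasureTheory ENNReal

namespace HF

theorem hfup_edist {x y w : Set ℕ} {n : ℕ} (hx : ∀ i < n, (i ∈ x ↔ i ∈ w))
    (hy : ∀ i < n, (i ∈ y ↔ i ∈ w)) : edist (bin x) (bin y) ≤ (1 / 2 : ℝ≥0∞) ^ n := by
  have h := abs_bin_sub_le (x := x) (y := y) (n := n) fun i hi => (hx i hi).trans (hy i hi).symm
  rw [edist_dist, Real.dist_eq]
  calc ENNReal.ofReal |bin x - bin y| ≤ ENNReal.ofReal ((1 / 2 : ℝ) ^ n) :=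
        ENNReal.ofReal_le_ofReal h
    _ = (1 / 2 : ℝ≥0∞) ^ n := by
        rw [ENNReal.ofReal_pow (by norm_num)]
        congr 1
        rw [ENNReal.ofReal_div_of_pos (by norm_num)]
        simp

/-- Let `d > 0`. For `K` large cover `bin2 '' Z` by the sets
`bin2 '' {z | z.1 agrees with f m s and z.2 with g m s below K * (m + 1)}`, `m : ℕ`,
`s ⊆ range m`; their diameters (maximum norm) are at most `2 ^ (- K * (m + 1))` by
`abs_bin_sub_le`, and `∑ 2 ^ m * 2 ^ (- d * K * (m + 1)) → 0` as `K → ∞`. So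
`μH[d] (bin2 '' Z) = 0` by `Measure.hausdorffMeasure_le_liminf_tsum`; `dimH ≤ d` for all `d > 0`. -/
theorem dimH_of_comb2 {Z : Set (Set ℕ × Set ℕ)} (h : Comb2 Z) : dimH (bin2 '' Z) = 0 := by
  choose f g hfg using h
  -- the cover
  let ι : ℕ → Type := fun _ => Σ m : ℕ, {s : Finset ℕ // s ∈ (Finset.range m).powerset}
  let t : ∀ K : ℕ, ι K → Set (ℝ × ℝ) := fun K i =>
    bin2 '' {z | (∀ j < K * (i.1 + 1), (j ∈ z.1 ↔ j ∈ f K i.1 i.2.1)) ∧
      ∀ j < K * (i.1 + 1), (j ∈ z.2 ↔ j ∈ g K i.1 i.2.1)}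
  have hdiam : ∀ K (i : ι K), Metric.ediam (t K i) ≤ (1 / 2 : ℝ≥0∞) ^ (K * (i.1 + 1)) := by
    intro K i
    refine Metric.ediam_le ?_
    rintro _ ⟨z, hz, rfl⟩ _ ⟨z', hz', rfl⟩
    rw [Prod.edist_eq]
    exact max_le (hfup_edist hz.1 hz'.1) (hfup_edist hz.2 hz'.2)
  have hhalf : (1 / 2 : ℝ≥0∞) < 1 := by
    rw [one_div]; exact ENNReal.inv_lt_one.2 (by norm_num)
  have key : ∀ d : NNReal, 0 < d → μH[(d : ℝ)] (bin2 '' Z) = 0 := by
    intro d hd
    have hdR : (0 : ℝ) < d := by exact_mod_cast hd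
    set a : ℝ≥0∞ := (1 / 2 : ℝ≥0∞) ^ (d : ℝ) with ha
    have ha1 : a < 1 := ENNReal.rpow_lt_one hhalf hdR
    have htend : Filter.Tendsto (fun K : ℕ => a ^ K) Filter.atTop (nhds 0) :=
      ENNReal.tendsto_pow_atTop_nhds_zero_of_lt_one ha1
    have htend2 : Filter.Tendsto (fun K : ℕ => 2 * a ^ K) Filter.atTop (nhds 0) := by
      have := ENNReal.Tendsto.const_mul (a := 2) htend (Or.inr (by norm_num))
      simpa using this
    have hle := Measure.hausdorffMeasure_le_liminf_tsum (d : ℝ) (bin2 '' Z)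
      (l := Filter.atTop) (fun K : ℕ => (1 / 2 : ℝ≥0∞) ^ K)
      (ENNReal.tendsto_pow_atTop_nhds_zero_of_lt_one hhalf) t
      (Filter.Eventually.of_forall fun K i => (hdiam K i).trans
        (pow_le_pow_right_of_le_one' hhalf.le (Nat.le_mul_of_pos_right _ (Nat.succ_pos _))))
      (Filter.Eventually.of_forall fun K => by
        rintro _ ⟨z, hz, rfl⟩
        obtain ⟨m, s, hs, h1, h2⟩ := hfg K z hz
        exact Set.mem_iUnion.2 ⟨⟨m, s, Finset.mem_powerset.2 hs⟩, z, ⟨h1, h2⟩, rfl⟩)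
    have hbound : ∀ᶠ K in Filter.atTop, (∑' i : ι K, Metric.ediam (t K i) ^ (d : ℝ)) ≤
        2 * a ^ K := by
      have hev : ∀ᶠ K : ℕ in Filter.atTop, 2 * a ^ K < 1 / 2 :=
        htend2.eventually (gt_mem_nhds (by norm_num))
      filter_upwards [hev] with K hK
      have hterm : ∀ m (s : {s : Finset ℕ // s ∈ (Finset.range m).powerset}),
          Metric.ediam (t K ⟨m, s⟩) ^ (d : ℝ) ≤ (a ^ K) ^ (m + 1) := by
        intro m s
        calc Metric.ediam (t K ⟨m, s⟩) ^ (d : ℝ)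
            ≤ ((1 / 2 : ℝ≥0∞) ^ (K * (m + 1))) ^ (d : ℝ) :=
              ENNReal.rpow_le_rpow (hdiam K ⟨m, s⟩) hdR.le
          _ = (a ^ K) ^ (m + 1) := by
              rw [← pow_mul, ha, ← ENNReal.rpow_natCast, ← ENNReal.rpow_natCast,
                ← ENNReal.rpow_mul, ← ENNReal.rpow_mul, mul_comm]
      calc (∑' i : ι K, Metric.ediam (t K i) ^ (d : ℝ))
          = ∑' m : ℕ, ∑' s : {s : Finset ℕ // s ∈ (Finset.range m).powerset},
              Metric.ediam (t K ⟨m, s⟩) ^ (d : ℝ) := ENNReal.tsum_sigma' _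
        _ ≤ ∑' m : ℕ, a ^ K * (2 * a ^ K) ^ m := by
              refine ENNReal.tsum_le_tsum fun m => ?_
              rw [tsum_fintype]
              calc ∑ s : {s : Finset ℕ // s ∈ (Finset.range m).powerset},
                    Metric.ediam (t K ⟨m, s⟩) ^ (d : ℝ)
                  ≤ ∑ s : {s : Finset ℕ // s ∈ (Finset.range m).powerset}, (a ^ K) ^ (m + 1) :=
                    Finset.sum_le_sum fun s _ => hterm m s
                _ = 2 ^ m * (a ^ K) ^ (m + 1) := by
                    rw [Finset.sum_const, Finset.card_univ, Fintype.card_coe,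
                      Finset.card_powerset, Finset.card_range, nsmul_eq_mul]
                    push_cast
                    rfl
                _ = a ^ K * (2 * a ^ K) ^ m := by rw [mul_pow, pow_succ]; ring
        _ = a ^ K * (1 - 2 * a ^ K)⁻¹ := by rw [ENNReal.tsum_mul_left, ENNReal.tsum_geometric]
        _ ≤ a ^ K * 2 := by
              gcongr
              rw [ENNReal.inv_le_iff_inv_le]
              refine le_trans ?_ (tsub_le_tsub_left hK.le 1)
              rw [one_div, ENNReal.one_sub_inv_two]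
        _ = 2 * a ^ K := mul_comm _ _
    refine le_antisymm (hle.trans ?_) bot_le
    calc Filter.liminf (fun K => ∑' i : ι K, Metric.ediam (t K i) ^ (d : ℝ)) Filter.atTop
        ≤ Filter.liminf (fun K : ℕ => 2 * a ^ K) Filter.atTop := Filter.liminf_le_liminf hbound
      _ = 0 := htend2.liminf_eq
  refine le_antisymm ?_ bot_le
  refine ENNReal.le_of_forall_pos_le_add fun ε hε _ => ?_
  rw [zero_add]
  exact dimH_le_of_hausdorffMeasure_ne_top (by rw [key ε hε]; exact ENNReal.zero_ne_top)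

end HF
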