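import Pool.Agent.H71.HF.VdimA

/-!
# VDIM: Hausdorff dimension zero in the structure `(ZFSet, ∈)`
-/

set_option autoImplicit false

open Cardinal BV PK HM

namespace HF

theorem vdim_inBox (K k : ℕ) (t : Finset ℕ) (F y : ZFSet.{0}) :
    InBox VE omz (num K) F (num k) (enc (↑t : Set ℕ)) y ↔
      ∃ a, App VE F (ZFSet.pair (num k) (enc (↑t : Set ℕ))) a ∧
        ∀ i < K * (k + 1), (i ∈ dec y ↔ i ∈ dec a) := by
  constructor
  · rintro ⟨p, a, n, hp, ha, hn, hm, hag⟩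
    rw [isOPair_V] at hp
    subst hp
    obtain ⟨n', rfl⟩ := (mem_omz n).1 hn
    rw [mulLe_V] at hm
    rw [agree_V] at hag
    exact ⟨a, ha, fun i hi => hag i (lt_of_lt_of_le hi hm)⟩
  · rintro ⟨a, ha, hag⟩
    refine ⟨ZFSet.pair (num k) (enc (↑t : Set ℕ)), a, num (K * (k + 1)), ?_, ha,
      (mem_omz _).2 ⟨_, rfl⟩, (mulLe_V _ _ _).2 le_rfl, (agree_V _ _ _).2 hag⟩
    rw [isOPair_V]

open Classical in
/-- the function given by a code -/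
noncomputable def vdimF (F : ZFSet.{0}) (k : ℕ) (t : Finset ℕ) : Set ℕ :=
  if h : ∃ a, App VE F (ZFSet.pair (num k) (enc (↑t : Set ℕ))) a then dec h.choose else ∅

theorem vdimF_eq {F : ZFSet.{0}} (hF : IsFun VE F) {k : ℕ} {t : Finset ℕ} {a : ZFSet.{0}}
    (ha : App VE F (ZFSet.pair (num k) (enc (↑t : Set ℕ))) a) : vdimF F k t = dec a := by
  have h : ∃ a, App VE F (ZFSet.pair (num k) (enc (↑t : Set ℕ))) a := ⟨a, ha⟩
  unfold vdimF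
  rw [dif_pos h, hF _ _ _ h.choose_spec ha]

/-- (→) Given `K` let `F` be the cover for `num K`, and `f m s = dec a` if
`App F (pair (num m) (enc s)) a`. (←) `exists_fun`; use `isIdx_V`, `mulLe_V`, `agree_V`,
`isOPair_V`. -/
theorem dimZero1_V (Y : ZFSet.{0} → Prop) (hY : ∀ y, Y y → IsReal VE omz y) :
    DimZero1 VE omz Y ↔ Comb1 {a | ∃ y, Y y ∧ a = dec y} := by
  constructor
  · intro h K
    obtain ⟨F, hF, h1⟩ := h (num K) ((mem_omz _).2 ⟨K, rfl⟩)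
    refine ⟨vdimF F, ?_⟩
    rintro _ ⟨y, hy, rfl⟩
    obtain ⟨m, s, hms, hbox⟩ := h1 y hy
    obtain ⟨k, t, ht, rfl, rfl⟩ := (isIdx_V m s).1 hms
    obtain ⟨a, ha, hag⟩ := (vdim_inBox K k t F y).1 hbox
    refine ⟨k, t, ht, ?_⟩
    rw [vdimF_eq hF ha]
    exact hag
  · intro h K hK
    obtain ⟨K, rfl⟩ := (mem_omz K).1 hK
    obtain ⟨f, hf⟩ := h K
    obtain ⟨F, hF, hFf⟩ := exists_fun f
    refine ⟨F, hF, fun y hy => ?_⟩
    obtain ⟨m, s, hs, hag⟩ := hf (dec y) ⟨y, hy, rfl⟩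
    refine ⟨num m, enc (↑s : Set ℕ), (isIdx_V _ _).2 ⟨m, s, hs, rfl, rfl⟩, ?_⟩
    rw [vdim_inBox]
    refine ⟨enc (f m s), (hFf m s _).2 rfl, ?_⟩
    rw [dec_enc]
    exact hag

theorem dimZero2_V (Z : ZFSet.{0} → ZFSet.{0} → Prop)
    (hZ : ∀ x y, Z x y → IsReal VE omz x ∧ IsReal VE omz y) :
    DimZero2 VE omz Z ↔ Comb2 {a | ∃ x y, Z x y ∧ a = (dec x, dec y)} := by
  constructor
  · intro h K
    obtain ⟨F, G, hF, hG, h1⟩ := h (num K) ((mem_omz _).2 ⟨K, rfl⟩)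
    refine ⟨vdimF F, vdimF G, ?_⟩
    rintro _ ⟨x, y, hxy, rfl⟩
    obtain ⟨m, s, hms, hbox1, hbox2⟩ := h1 x y hxy
    obtain ⟨k, t, ht, rfl, rfl⟩ := (isIdx_V m s).1 hms
    obtain ⟨a, ha, hag⟩ := (vdim_inBox K k t F x).1 hbox1
    obtain ⟨b, hb, hbg⟩ := (vdim_inBox K k t G y).1 hbox2
    refine ⟨k, t, ht, ?_, ?_⟩
    · rw [vdimF_eq hF ha]
      exact hag
    · rw [vdimF_eq hG hb]
      exact hbg
  · intro h K hK
    obtain ⟨K, rfl⟩ := (mem_omz K).1 hK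
    obtain ⟨f, g, hf⟩ := h K
    obtain ⟨F, hF, hFf⟩ := exists_fun f
    obtain ⟨G, hG, hGg⟩ := exists_fun g
    refine ⟨F, G, hF, hG, fun x y hxy => ?_⟩
    obtain ⟨m, s, hs, hag, hbg⟩ := hf (dec x, dec y) ⟨x, y, hxy, rfl⟩
    refine ⟨num m, enc (↑s : Set ℕ), (isIdx_V _ _).2 ⟨m, s, hs, rfl, rfl⟩, ?_, ?_⟩
    · rw [vdim_inBox]
      refine ⟨enc (f m s), (hFf m s _).2 rfl, ?_⟩
      rw [dec_enc]
      exact hag
    · rw [vdim_inBox]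
      refine ⟨enc (g m s), (hGg m s _).2 rfl, ?_⟩
      rw [dec_enc]
      exact hbg

end HF
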